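import Mathlib
import Pool.Agent.H20.PolyDom
import Pool.Agent.H20.UnionFam

/-!
Essential extreme points of profiles of `t`-intersecting families when `t` is close to `n`.
-/

set_option autoImplicit false

namespace Pool.Agent.Results.MP_05ae4a_co.LargeT

open Finset

/-- any two members (equal ones included) share at least `t` elements -/
def TIntersecting {n : ℕ} (t : ℕ) (F : Finset (Finset (Fin n))) : Prop :=
  ∀ A ∈ F, ∀ B ∈ F, t ≤ (A ∩ B).card

/-- the profile vector: the `i`-th entry counts the members with `i` elements -/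
def profile {n : ℕ} (F : Finset (Finset (Fin n))) : Fin (n + 1) → ℝ :=
  fun i => ((F.filter fun A => A.card = (i : ℕ)).card : ℝ)

/-- the profile vectors of `t`-intersecting families on `n` points -/
def profiles (n t : ℕ) : Set (Fin (n + 1) → ℝ) :=
  {p | ∃ F : Finset (Finset (Fin n)), TIntersecting t F ∧ p = profile F}

/-- the essential extreme points: vertices of the hull of the profile vectors that are below no
other vertex -/
def essential (n t : ℕ) : Set (Fin (n + 1) → ℝ) :=
  {p | p ∈ (convexHull ℝ (profiles n t)).extremePoints ℝ ∧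
    ∀ r ∈ (convexHull ℝ (profiles n t)).extremePoints ℝ, (∀ i, p i ≤ r i) → r = p}

/-- the Frankl family: sets with at least `t + j` of the first `t + 2 j` points -/
def frankl (n t j : ℕ) : Finset (Finset (Fin n)) :=
  univ.filter fun A => t + j ≤ (A.filter fun x : Fin n => (x : ℕ) < t + 2 * j).card

open Pool.Agent.H20.UnionFam Pool.Agent.H20.PolyDom

lemma profile_eq {n : ℕ} (F : Finset (Finset (Fin n))) (i : Fin (n + 1)) :
    profile F i = (q (F.image compl) (n - i) : ℝ) := by
  unfold profile q
  congr 1
  have : (F.image compl).filter (fun A => A.card = n - (i : ℕ)) =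
      (F.filter fun A => A.card = (i : ℕ)).image compl := by
    ext A
    simp only [mem_filter, mem_image]
    constructor
    · rintro ⟨⟨B, hB, rfl⟩, hc⟩
      refine ⟨B, ⟨hB, ?_⟩, rfl⟩
      rw [card_compl, Fintype.card_fin] at hc
      have h1 : B.card ≤ n := by simpa using card_le_univ B
      have h2 := i.2
      omega
    · rintro ⟨B, ⟨hB, hc⟩, rfl⟩
      refine ⟨⟨B, hB, rfl⟩, ?_⟩
      rw [card_compl, Fintype.card_fin, hc]
  rw [this, card_image_of_injective _ compl_injective]

lemma frankl_compl {n t j : ℕ} (ht : t ≤ n) (hj : t + 2 * j ≤ n) :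
    (frankl n t j).image compl = K n (n - t) j := by
  ext A
  simp only [mem_image, frankl, mem_filter, mem_univ, true_and, K, mem_KY]
  have key : ∀ B : Finset (Fin n), (B.filter fun x : Fin n => (x : ℕ) < t + 2 * j).card +
      (Bᶜ \ Ys n (n - t) j).card = t + 2 * j := by
    intro B
    have h1 : Bᶜ \ Ys n (n - t) j = Bᶜ.filter fun x : Fin n => (x : ℕ) < t + 2 * j := by
      ext x
      simp only [Ys, mem_sdiff, mem_filter, mem_univ, true_and, not_le, mem_compl]
      constructor
      · rintro ⟨h, h'⟩; exact ⟨h, by omega⟩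
      · rintro ⟨h, h'⟩; exact ⟨h, by omega⟩
    rw [h1, ← card_union_of_disjoint]
    · rw [← filter_union, union_compl, Fin.card_filter_val_lt]
      omega
    · exact disjoint_filter_filter disjoint_compl_right
  constructor
  · rintro ⟨B, hB, rfl⟩
    have := key B
    omega
  · intro hA
    refine ⟨Aᶜ, ?_, compl_compl A⟩
    have := key Aᶜ
    rw [compl_compl] at this
    omega

lemma frankl_int {n t j : ℕ} (hj : t + 2 * j ≤ n) : TIntersecting t (frankl n t j) := by
  intro A hA B hB
  simp only [frankl, mem_filter, mem_univ, true_and] at hA hB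
  set T : Finset (Fin n) := univ.filter fun x : Fin n => (x : ℕ) < t + 2 * j with hT
  have hTc : T.card = t + 2 * j := by
    rw [hT, Fin.card_filter_val_lt]; omega
  have h1 : ((A.filter fun x : Fin n => (x : ℕ) < t + 2 * j) ∪ (B.filter fun x : Fin n => (x : ℕ) < t + 2 * j)).card ≤
      T.card := by
    apply card_le_card
    intro x hx
    simp only [mem_union, mem_filter] at hx
    simp only [hT, mem_filter, mem_univ, true_and]
    rcases hx with h | h <;> exact h.2
  have h2 := card_union_add_card_inter (A.filter fun x : Fin n => (x : ℕ) < t + 2 * j)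
    (B.filter fun x : Fin n => (x : ℕ) < t + 2 * j)
  have h3 : ((A.filter fun x : Fin n => (x : ℕ) < t + 2 * j) ∩ (B.filter fun x : Fin n => (x : ℕ) < t + 2 * j)).card ≤
      (A ∩ B).card := by
    apply card_le_card
    intro x hx
    simp only [mem_inter, mem_filter] at hx ⊢
    exact ⟨hx.1.1, hx.2.1⟩
  omega

lemma prof_K {n t j : ℕ} (ht : t ≤ n) (hj : t + 2 * j ≤ n) (i : Fin (n + 1)) :
    profile (frankl n t j) i = (q (K n (n - t) j) (n - i) : ℝ) := by
  rw [profile_eq, frankl_compl ht hj]

/-- **Main result.** If `16 (n - t + 1)² 2^(n - t) ≤ n` then the essential extreme points of the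
profiles of `t`-intersecting families are exactly the profiles of the Frankl families with
`0 ≤ j ≤ (n - t) / 2`, and these are pairwise different. -/
theorem result (n t : ℕ) (ht : t ≤ n) (hn : 16 * (n - t + 1) ^ 2 * 2 ^ (n - t) ≤ n) :
    essential n t = {p | ∃ j, j ≤ (n - t) / 2 ∧ p = profile (frankl n t j)} ∧
    ∀ j l, j ≤ (n - t) / 2 → l ≤ (n - t) / 2 →
      profile (frankl n t j) = profile (frankl n t l) → j = l := by
  classical
  have hsep : ∀ j l, j ≤ (n - t) / 2 → l ≤ (n - t) / 2 → l ≠ j →
      ∃ i : Fin (n + 1), profile (frankl n t l) i < profile (frankl n t j) i := by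
    intro j l hj hl hlj
    have := sep hn hj hl hlj
    refine ⟨⟨n - (n - t - j), by omega⟩, ?_⟩
    rw [prof_K ht (by omega), prof_K ht (by omega)]
    have e : n - ((⟨n - (n - t - j), by omega⟩ : Fin (n + 1)) : ℕ) = n - t - j := by
      simp only; omega
    rw [e]
    exact_mod_cast this
  constructor
  · have main := ess_eq (P := profiles n t) (J := {j : ℕ // j ≤ (n - t) / 2})
      (V := fun j => profile (frankl n t j.1)) ?_ ?_ ?_ ?_ ?_
    · have e1 : essential n t = ess (profiles n t) := rfl
      rw [e1, main]
      ext p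
      constructor
      · rintro ⟨⟨j, hj⟩, rfl⟩
        exact ⟨j, hj, rfl⟩
      · rintro ⟨j, hj, rfl⟩
        exact ⟨⟨j, hj⟩, rfl⟩
    · rintro _ ⟨F, hF, rfl⟩ i
      refine ⟨F.filter fun A => A.card ≠ (i : ℕ), ?_, ?_⟩
      · intro A hA B hB
        exact hF A (mem_filter.1 hA).1 B (mem_filter.1 hB).1
      · ext k
        by_cases hk : k = i
        · subst hk
          simp only [Function.update_self, profile]
          symm
          norm_cast
          rw [card_eq_zero, filter_eq_empty_iff]
          intro A hA
          exact (mem_filter.1 hA).2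
        · rw [Function.update_of_ne hk]
          unfold profile
          congr 2
          ext A
          simp only [mem_filter]
          constructor
          · rintro ⟨h1, h2⟩
            exact ⟨⟨h1, fun h => hk (Fin.ext (h2 ▸ h))⟩, h2⟩
          · rintro ⟨⟨h1, _⟩, h2⟩
            exact ⟨h1, h2⟩
    · rintro _ ⟨F, hF, rfl⟩ i
      exact Nat.cast_nonneg _
    · rintro ⟨j, hj⟩
      have hj' : t + 2 * j ≤ n := by omega
      exact ⟨_, frankl_int hj', rfl⟩
    · rintro _ ⟨F, hF, rfl⟩
      obtain ⟨j, l, hj, hl, h⟩ := dom hn (F.image compl) (by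
        intro A hA B hB
        obtain ⟨A', hA', rfl⟩ := mem_image.1 hA
        obtain ⟨B', hB', rfl⟩ := mem_image.1 hB
        rw [← compl_inter, card_compl, Fintype.card_fin]
        have := hF A' hA' B' hB'
        omega)
      have m1 : profile (frankl n t j) ∈ Set.range
          (fun j : {j : ℕ // j ≤ (n - t) / 2} => profile (frankl n t j.1)) := ⟨⟨j, hj⟩, rfl⟩
      have m2 : profile (frankl n t l) ∈ Set.range
          (fun j : {j : ℕ // j ≤ (n - t) / 2} => profile (frankl n t j.1)) := ⟨⟨l, hl⟩, rfl⟩
      refine ⟨(1 / 2 : ℝ) • profile (frankl n t j) + (1 / 2 : ℝ) • profile (frankl n t l), ?_, ?_⟩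
      · exact (convex_convexHull ℝ _) (subset_convexHull ℝ _ m1)
          (subset_convexHull ℝ _ m2) (by norm_num) (by norm_num) (by norm_num)
      · intro i
        simp only [Pi.add_apply, Pi.smul_apply, smul_eq_mul]
        rw [profile_eq, prof_K ht (by omega), prof_K ht (by omega)]
        have h1 := h (n - i)
        have h2 : (2 : ℝ) * (q (F.image compl) (n - i) : ℝ) ≤
            (q (K n (n - t) j) (n - i) : ℝ) + (q (K n (n - t) l) (n - i) : ℝ) := by
          exact_mod_cast h1
        linarith
    · rintro ⟨j, hj⟩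
      refine ⟨⟨n - (n - t - j), by omega⟩, ?_⟩
      rintro ⟨l, hl⟩ hne
      have hlj : l ≠ j := fun h => hne (Subtype.ext h)
      have h1 := sep (n := n) hn hj hl hlj
      simp only
      rw [prof_K ht (by omega), prof_K ht (by omega)]
      have e : n - ((⟨n - (n - t - j), by omega⟩ : Fin (n + 1)) : ℕ) = n - t - j := by
        simp only; omega
      rw [e]
      exact_mod_cast h1
  · intro j l hj hl h
    by_contra hne
    obtain ⟨i, hi⟩ := hsep j l hj hl (Ne.symm hne)
    rw [h] at hi
    exact lt_irrefl _ hi

end Pool.Agent.Results.MP_05ae4a_co.LargeT
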